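import Mathlib
import Pool.Agent.Work.MP_841263_r.Main

/-!
# All real roots and all radical classes are semistable, for every stability condition

`EllipticSetting C`: `C` is an indecomposable Ext-finite K3 category whose Grothendieck group is
free of finite rank at least four and generated by the classes of rigid objects, whose Euler form
`χ` is positive semidefinite with radical of rank two, the lattice modulo the radical being
indecomposable (for example the category `𝒟` of the problem). For every stability condition on
`C`, every nonzero class `x` with `χ(x, x) ≤ 2` (the real roots and the nonzero radical classes)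
is the class of a nonzero semistable object, which is spherical if `χ(x, x) = 2`.
-/

open CategoryTheory CategoryTheory.Limits CategoryTheory.Pretriangulated Pool.Stab

namespace Pool.Agent.Results.MP_841263_ag.AllRoots

universe v u

theorem result {C : Type u} [Category.{v} C] [Preadditive C] [HasZeroObject C] [HasShift C ℤ]
    [∀ n : ℤ, (shiftFunctor C n).Additive] [Pretriangulated C] [IsTriangulated C] [Linear ℂ C]
    [∀ n : ℤ, (shiftFunctor C n).Linear ℂ] (h : EllipticSetting C) (σ : StabCond C) (x : K0 C)
    (hx0 : x ≠ 0) (hx : eulerForm h.k3 x x ≤ 2) :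
    ∃ (φ : ℝ) (X : C), σ.sl.P φ X ∧ ¬ IsZero X ∧ cls X = x ∧
      (eulerForm h.k3 x x = 2 → Spherical X) := by
  have h1 := h.psd x
  obtain ⟨r, hr⟩ := h.even x
  have h2 : eulerForm h.k3 x x = 0 ∨ eulerForm h.k3 x x = 2 := by omega
  rcases h2 with h2 | h2
  · obtain ⟨φ, X, hX, h0, hc⟩ := h.radical_semistable σ (h.psd'.mem_radical_of_self h2) hx0
    exact ⟨φ, X, hX, h0, hc, fun h3 => by omega⟩
  · obtain ⟨φ, X, hX, hs, hc⟩ := h.root_semistable σ h2
    refine ⟨φ, X, hX, fun h0 => hx0 ?_, hc, fun _ => hs⟩
    rw [← hc, cls_of_isZero h0]

end Pool.Agent.Results.MP_841263_ag.AllRoots
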