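import Mathlib
import Pool.Agent.Work.MP_841263_al.All
import Pool.Agent.Work.MP_841263_sr.All
import Pool.Agent.Work.MP_841263_sq.Final

/-!
# The space of stability conditions is path connected

`EllipticSetting C` is the class of K3 categories of elliptic type which contains the category
`𝒟` of the problem. Assume moreover that `C` is a full triangulated subcategory of a triangulated
category `T` (the inclusion is `ι`) and that `T` has an object `G` with an endomorphism `t` such
that `Param ι t` holds: `Hom(G, A)` is finite dimensional for `A` in `C`, `Hom(G, A[n]) = 0` for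
almost all `n`, `t` is nilpotent on `Hom(G, A)`, the cone of `t` belongs to `C` and
`dim Hom(E, E[1]) ≤ 2 n + c` for the cone `E` of `tⁿ`. Let `B` be the cone of `t` and let `A` be
an object of `C` whose class lies in the radical and which satisfies
`χ(G, A) = ∑ (-1)ⁿ dim Hom(G, A[n]) ≠ 0`. (For the category `𝒟` of the problem: `T = Dᵇ(Coh Y)`,
`G = 𝒪_Y`, `t` the function `zʳ` on `Y`, `z` being the fibre coordinate, `A = 𝒪_x` for a point
`x`.) Then any two stability conditions on `C` are joined by a path. The period map is a covering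
map from the whole space of stability conditions onto one of the two halves of the regular
charges. So the space of stability conditions is simply connected if and only if no nontrivial
homotopy class of loops of regular charges fixes a given stability condition under the monodromy
of the period covering.
-/

open CategoryTheory CategoryTheory.Limits CategoryTheory.Pretriangulated Pool.Stab

namespace Pool.Agent.Results.MP_841263_ag.PathConnected

universe v u v' u'

theorem result {C : Type u} [Category.{v} C] [Preadditive C] [HasZeroObject C] [HasShift C ℤ]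
    [∀ n : ℤ, (shiftFunctor C n).Additive] [Pretriangulated C] [IsTriangulated C] [Linear ℂ C]
    [∀ n : ℤ, (shiftFunctor C n).Linear ℂ] {T : Type u'} [Category.{v'} T] [Preadditive T]
    [HasZeroObject T] [HasShift T ℤ] [∀ n : ℤ, (shiftFunctor T n).Additive] [Pretriangulated T]
    [IsTriangulated T] [Linear ℂ T] [∀ n : ℤ, (shiftFunctor T n).Linear ℂ]
    (ι : C ⥤ T) [ι.CommShift ℤ] [ι.IsTriangulated] [ι.Full] [ι.Faithful] [ι.Linear ℂ]
    (h : EllipticSetting C) {G : T} (t : G ⟶ G) (ht : Param ι t) (A B : C) (hB : IsCone ι t B)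
    (hA : cls A ∈ radical (eulerForm h.k3)) (hdeg : degChar ι G A ≠ 0) :
    (∀ σ τ : StabCond C, Joined σ τ) ∧
    ∃ π : StabCond C → Xreg (eulerForm h.k3), (∀ σ : StabCond C, (π σ : K0 C →+ ℂ) = σ.Z) ∧
    ∃ cov : IsCoveringMap π,
      (∀ (_ : StabCond C) (W : Xreg (eulerForm h.k3)), (∃ τ : StabCond C, π τ = W) ↔
        0 < orientOf (W : K0 C →+ ℂ) (cls B) (cls A) * (degChar ι G A : ℝ)) ∧
      ∀ σ₀ : StabCond C,
        (SimplyConnectedSpace (StabCond C) ↔ Function.Injective
          (fun γ : Path.Homotopic.Quotient (π σ₀) (π σ₀) => cov.monodromy γ ⟨σ₀, rfl⟩)) := by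
  have hE : Pool.Align.Stmt_END C := Pool.Align.h_END C (Pool.Sep.q_SEP C) (Pool.SR.c_HLF C)
  obtain ⟨h1, h2, -⟩ := h.one_orientation ht hB hA hdeg
  have hj : ∀ σ τ : StabCond C, Joined σ τ := Pool.Align.joined_of_param hE h ht hB hA hdeg
  refine ⟨hj, h.period, fun _ => rfl, h.isCoveringMap_period, fun σ W => ⟨?_, ?_⟩, fun σ₀ =>
    Pool.Align.simplyConnected_iff_injective h.isCoveringMap_period σ₀ (hj σ₀)⟩
  · rintro ⟨τ, rfl⟩
    exact h1 τ
  · intro hW
    obtain ⟨τ, -, hτ⟩ := h2 σ W hW
    exact ⟨τ, hτ⟩

end Pool.Agent.Results.MP_841263_ag.PathConnected
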