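import Mathlib
import Pool.Agent.Work.MP_841263_c.Crit

/-!
# Every component of the space of stability conditions covers the regular charges

`EllipticSetting C`: `C` is an indecomposable Ext-finite K3 category whose Grothendieck group is
free of finite rank at least four and generated by the classes of rigid objects, whose Euler form
is positive semidefinite with radical of rank two, the lattice modulo the radical being
indecomposable (for example the category `𝒟` of the problem). The period map `π : σ ↦ σ.Z` from
the whole space of stability conditions to the space of regular charges is a covering map, every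
path component is mapped onto all regular charges of its orientation, and the space of stability
conditions is simply connected if and only if it has one orientation only and the fundamental
group of the regular charges acts simply transitively on a fibre.
-/

open CategoryTheory CategoryTheory.Limits CategoryTheory.Pretriangulated Pool.Stab

namespace Pool.Agent.Results.MP_841263_ag.PeriodCovering

universe v u

theorem result {C : Type u} [Category.{v} C] [Preadditive C] [HasZeroObject C] [HasShift C ℤ]
    [∀ n : ℤ, (shiftFunctor C n).Additive] [Pretriangulated C] [IsTriangulated C] [Linear ℂ C]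
    [∀ n : ℤ, (shiftFunctor C n).Linear ℂ] (h : EllipticSetting C) (r s : K0 C)
    (hr : r ∈ radical (eulerForm h.k3)) (hs : s ∈ radical (eulerForm h.k3))
    (hrs : LinearIndependent ℤ ![r, s]) :
    ∃ π : StabCond C → Xreg (eulerForm h.k3), (∀ σ : StabCond C, (π σ : K0 C →+ ℂ) = σ.Z) ∧
    ∃ cov : IsCoveringMap π,
      (∀ (σ : StabCond C) (W : Xreg (eulerForm h.k3)),
        0 < orientOf σ.Z r s * orientOf (W : K0 C →+ ℂ) r s →
          ∃ τ : StabCond C, Joined σ τ ∧ π τ = W) ∧
      ∀ σ₀ : StabCond C,
        (SimplyConnectedSpace (StabCond C) ↔
          (∀ σ : StabCond C, 0 < orientOf σ.Z r s * orientOf σ₀.Z r s) ∧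
          ∀ τ : π ⁻¹' {π σ₀}, ∃! γ : Path.Homotopic.Quotient (π σ₀) (π σ₀),
            cov.monodromy γ ⟨σ₀, rfl⟩ = τ) :=
  ⟨h.period, fun _ => rfl, h.isCoveringMap_period,
    fun σ W hW => h.exists_joined hr hs hrs σ W hW,
    fun σ₀ => h.simplyConnected_iff hr hs hrs σ₀⟩

end Pool.Agent.Results.MP_841263_ag.PeriodCovering
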