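import Mathlib
import Pool.Agent.Work.MP_841263_tu.Final

/-!
# Every generic stability condition looks like an elliptic fibre

`EllipticSetting C`: `C` is an indecomposable Ext-finite K3 category whose Grothendieck group is
free of finite rank at least four and generated by the classes of rigid objects, whose Euler form
is positive semidefinite with radical of rank two, the lattice modulo the radical being
indecomposable (for example the category `𝒟` of the problem). Let `σ` be ANY stability condition
on `C`, in any component, and `δ` a primitive radical class such that no root is mapped by the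
charge of `σ` to the real line through `σ.Z δ`. Then, `t + 1` being a phase of `σ.Z δ`, the heart
`P((t, t + 1])` has the structure of the category of coherent sheaves supported on a fibre of type
`α` of an elliptic surface (`Fibre`), and the stability conditions with the same objects `S i 0`,
`S i 1` are parametrised by their charges, which fill a cell.
-/

open CategoryTheory CategoryTheory.Limits CategoryTheory.Pretriangulated Pool.Stab Pool.Tube

namespace Pool.Agent.Results.MP_841263_ag.TubeStructure

universe v u

theorem result {C : Type u} [Category.{v} C] [Preadditive C] [HasZeroObject C] [HasShift C ℤ]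
    [∀ n : ℤ, (shiftFunctor C n).Additive] [Pretriangulated C] [IsTriangulated C] [Linear ℂ C]
    [∀ n : ℤ, (shiftFunctor C n).Linear ℂ] (h : EllipticSetting C) (σ : StabCond C) (δ : K0 C)
    (hδ : δ ∈ radical (eulerForm h.k3)) (h0 : δ ≠ 0)
    (hprim : ∀ (x : K0 C) (m : ℤ), δ = m • x → m = 1 ∨ m = -1)
    (hgen : ∀ β : K0 C, eulerForm h.k3 β β = 2 → (σ.Z β / σ.Z δ).im ≠ 0) :
    ∃ (t : ℝ) (n : ℕ) (α : Fin n → K0 C),
      σ.Z δ = -(‖σ.Z δ‖ : ℂ) * Complex.exp (Real.pi * t * Complex.I) ∧
      Module.finrank ℤ (K0 C) = n + 1 ∧ InCell t δ α σ.Z ∧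
      ∀ τ : StabCond C, InCell t δ α τ.Z →
        (∃ S : Fin n → ℤ → C, Fibre h τ t δ α S) ∧
        ∀ S : Fin n → ℤ → C, Fibre h τ t δ α S → ∀ W : K0 C →+ ℂ, InCell t δ α W →
          ∃ τ' : StabCond C, (τ'.Z = W ∧ Joined τ τ' ∧ SameFibre h t δ α S τ') ∧
            ∀ τ'' : StabCond C, τ''.Z = W → SameFibre h t δ α S τ'' → τ'' = τ' :=
  tube_structure h σ δ hδ h0 hprim hgen

end Pool.Agent.Results.MP_841263_ag.TubeStructure
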